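import Mathlib
import Pool.Agent.H611R4.Fin2
import Pool.Agent.H611R4.TaskB2

set_option autoImplicit false

namespace Pool.Agent.Results.MP_9053f7_an.AmenableNotHyperTauberian

open H611R4 H611R3.ZL

/-- **Amenability does not imply the hyper-Tauberian property.**

There is a (unital) commutative complex Banach algebra `A` which is semisimple, regular on its Gelfand
spectrum `X`, whose projective tensor square `A ⊗̂ A` is semisimple, and which is amenable but not
hyper-Tauberian: the diagonal of `X × X` is not a spectral set for `A ⊗̂ A`.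

Definitions (in `Pool/Agent/H611R4/Def2.lean`; `Amenable` in `Pool/Agent/H611R3/ZL/Def.lean`):
* `Semisimple A`: the characters of `A` separate its points;
* `Regular A`: closed subsets of the spectrum `characterSpace ℂ A` can be separated from points;
* `Tens A`: sequences `aᵢ, bᵢ` in `A` with `∑ ‖aᵢ‖ ‖bᵢ‖ < ∞`; they represent the elements
  `∑ aᵢ ⊗ bᵢ` of `A ⊗̂ A`, two of them the same element iff they have the same value `u.eval β` at every
  bounded bilinear form `β` (`IsBil`), and the norm is the infimum of `∑ ‖aᵢ‖ ‖bᵢ‖`;
* `u.gel (φ, ψ) = ∑ φ(aᵢ) ψ(bᵢ)`: the Gelfand transform on the spectrum `X × X` of `A ⊗̂ A`;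
* `TensSemisimple A`: `u ∈ A ⊗̂ A` with Gelfand transform zero is zero;
* `HyperTaub A`: every `u ∈ A ⊗̂ A` vanishing on the diagonal is a norm limit of `v ∈ A ⊗̂ A` with
  `supp v ∩ X_D = ∅`;
* `Amenable A`: every bounded derivation into the dual of a Banach bimodule is inner.
-/
theorem result : ∃ (A : Type) (_ : NormedCommRing A) (_ : NormedAlgebra ℂ A),
    CompleteSpace A ∧ Semisimple A ∧ Regular A ∧ TensSemisimple A ∧
      Amenable A ∧ ¬ HyperTaub A :=
  final2 taskB2

end Pool.Agent.Results.MP_9053f7_an.AmenableNotHyperTauberian
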